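import Pool.Agent.D0H34.KC.Stm

/-!
Project KC (helper34), module 2 GP: Eisenstein at `p`.
-/

set_option autoImplicit false

open Polynomial

namespace Pool.Agent.D0H50.KC

open Pool.Agent.D0H34.KC

/-- the product divides `X ^ n - 1` -/
theorem prod_dvd {n k p : ℕ} [Fact p.Prime] (a : Fin k → ℤ) (h1 : ∀ i, a i ^ n ≡ 1 [ZMOD p])
    (h2 : ∀ i j, i ≠ j → ¬ (p : ℤ) ∣ a i - a j) :
    ∏ i, (X - C ((a i : ℤ) : ZMod p)) ∣ (X ^ n - 1 : (ZMod p)[X]) := by
  refine Finset.prod_dvd_of_coprime ?_ ?_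
  · intro i _ j _ hij
    have hne : ((a i : ℤ) : ZMod p) ≠ ((a j : ℤ) : ZMod p) := by
      intro h
      apply h2 i j hij
      have h3 : (((a i - a j : ℤ)) : ZMod p) = 0 := by
        rw [Int.cast_sub, h, sub_self]
      exact (ZMod.intCast_zmod_eq_zero_iff_dvd _ p).1 h3
    exact isCoprime_X_sub_C_of_isUnit_sub (sub_ne_zero.2 hne).isUnit
  · intro i _
    rw [dvd_iff_isRoot, IsRoot.def]
    have h3 : (((a i) ^ n : ℤ) : ZMod p) = ((1 : ℤ) : ZMod p) :=
      (ZMod.intCast_eq_intCast_iff _ _ p).2 (h1 i)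
    simp only [eval_sub, eval_pow, eval_X, eval_one]
    push_cast at h3
    rw [h3, sub_self]

theorem t_GP : S_GP := by
  intro n k d p a c hp hkd hd h1 h2 hc
  have : Fact p.Prime := ⟨hp⟩
  have hn : 1 ≤ n := by omega
  obtain ⟨gb, hgb⟩ := prod_dvd a h1 h2
  set A : ℤ[X] := ∏ i, (X - C (a i)) with hA
  have hAm : A.Monic := monic_prod_X_sub_C _ _
  have hAd : A.natDegree = k := by
    rw [hA, natDegree_prod_of_monic _ _ fun i _ => monic_X_sub_C _]
    simp only [natDegree_X_sub_C]
    simp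
  have hmap : A.map (Int.castRingHom (ZMod p)) = ∏ i, (X - C ((a i : ℤ) : ZMod p)) := by
    rw [hA, Polynomial.map_prod]
    refine Finset.prod_congr rfl fun i _ => ?_
    simp
  have hBm : (A.map (Int.castRingHom (ZMod p))).Monic := hAm.map _
  rw [← hmap] at hgb
  have hXm : (X ^ n - 1 : (ZMod p)[X]).Monic := by
    have := monic_X_pow_sub_C (1 : ZMod p) (n := n) (by omega)
    simpa using this
  have hXd : (X ^ n - 1 : (ZMod p)[X]).natDegree = n := by
    have := natDegree_X_pow_sub_C (n := n) (r := (1 : ZMod p))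
    simpa using this
  have hgm : gb.Monic := by
    apply Monic.of_mul_monic_left hBm
    rw [← hgb]
    exact hXm
  have hgd : gb.natDegree = d := by
    have h3 := hBm.natDegree_mul hgm
    rw [← hgb, hXd, hAm.natDegree_map, hAd] at h3
    omega
  -- `A(0)` is a unit modulo `p`
  have hA0 : ((A.coeff 0 : ℤ) : ZMod p) * gb.coeff 0 = -1 := by
    have h3 := congrArg (fun P => coeff P 0) hgb
    simp only [coeff_sub, coeff_X_pow, coeff_one_zero, mul_coeff_zero, coeff_map] at h3
    rw [if_neg (by omega), zero_sub] at h3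
    exact h3.symm
  have hA0' : ((A.coeff 0 : ℤ) : ZMod p) ≠ 0 := by
    intro h
    rw [h, zero_mul] at hA0
    exact (neg_ne_zero.2 (one_ne_zero (α := ZMod p))) hA0.symm
  have hcc : ((c : ℤ) : ZMod p) = 1 := by
    have := (ZMod.intCast_eq_intCast_iff _ _ p).2 hc
    simpa using this
  obtain ⟨m, hm⟩ : (p : ℤ) ∣ A.coeff 0 * ((gb.coeff 0).val : ℤ) + c := by
    rw [← ZMod.intCast_zmod_eq_zero_iff_dvd]
    push_cast
    rw [ZMod.natCast_zmod_val, hA0, hcc]
    ring
  let t : ℤ := ((((A.coeff 0 : ℤ) : ZMod p)⁻¹ * (1 - (m : ZMod p))).val : ℤ)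
  obtain ⟨m', hm'⟩ : (p : ℤ) ∣ A.coeff 0 * t + m - 1 := by
    rw [← ZMod.intCast_zmod_eq_zero_iff_dvd]
    push_cast
    simp only [t]
    push_cast
    rw [ZMod.natCast_zmod_val]
    field_simp
    ring
  let G : ℕ → ℤ := fun j => if j = 0 then ((gb.coeff 0).val : ℤ) + p * t else ((gb.coeff j).val : ℤ)
  have hG : ∀ j, ((G j : ℤ) : ZMod p) = gb.coeff j := by
    intro j
    simp only [G]
    split_ifs with hj
    · subst hj
      push_cast
      rw [ZMod.natCast_zmod_val, ZMod.natCast_self]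
      ring
    · push_cast
      rw [ZMod.natCast_zmod_val]
  refine ⟨G, fun g hg hgdeg hco => ?_⟩
  have hgmap : g.map (Int.castRingHom (ZMod p)) = gb := by
    ext j
    rw [coeff_map]
    rcases lt_trichotomy j d with hj | hj | hj
    · have h3 := hco j hj
      have h4 : g.coeff j ≡ G j [ZMOD (p : ℤ)] := h3.of_dvd (Dvd.intro_left _ (by ring : (p : ℤ) * p = p ^ 2))
      have h5 := (ZMod.intCast_eq_intCast_iff _ _ p).2 h4
      rw [hG] at h5
      exact h5
    · have h3 : g.coeff j = 1 := by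
        rw [hj, ← hgdeg]
        exact hg
      have h4 : gb.coeff j = 1 := by
        rw [hj, ← hgd]
        exact hgm
      rw [h3, h4, map_one]
    · rw [coeff_eq_zero_of_natDegree_lt (by omega), coeff_eq_zero_of_natDegree_lt (by omega),
        map_zero]
  have hpol : pol a g c = A * g + C c := rfl
  have hAg : (A * g).Monic := hAm.mul hg
  have hAgd : (A * g).natDegree = n := by
    rw [hAm.natDegree_mul hg, hAd, hgdeg, hkd]
  have hfd : (pol a g c).natDegree = n := by
    rw [hpol, natDegree_add_C, hAgd]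
  have hfm : (pol a g c).Monic := by
    rw [hpol]
    refine hAg.add_of_left ?_
    refine lt_of_le_of_lt degree_C_le ?_
    rw [← natDegree_pos_iff_degree_pos, hAgd]
    omega
  have hfmap : (pol a g c).map (Int.castRingHom (ZMod p)) = X ^ n := by
    rw [hpol, Polynomial.map_add, Polynomial.map_mul, hgmap, ← hgb, map_C]
    have : (Int.castRingHom (ZMod p)) c = 1 := hcc
    rw [this, C_1]
    ring
  have hEis : (pol a g c).IsEisensteinAt (Ideal.span {(p : ℤ)}) := by
    refine ⟨?_, ?_, ?_⟩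
    · rw [hfm.leadingCoeff, Ideal.mem_span_singleton]
      intro h
      have h3 := Int.isUnit_iff.1 (isUnit_of_dvd_one h)
      have := hp.two_le
      omega
    · intro j hj
      rw [hfd] at hj
      rw [Ideal.mem_span_singleton, ← ZMod.intCast_zmod_eq_zero_iff_dvd]
      have h3 := congrArg (fun P => coeff P j) hfmap
      simp only [coeff_map, coeff_X_pow] at h3
      rw [if_neg (by omega)] at h3
      exact h3
    · rw [Ideal.span_singleton_pow, Ideal.mem_span_singleton]
      intro h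
      have h3 : (pol a g c).coeff 0 = A.coeff 0 * g.coeff 0 + c := by
        rw [hpol, coeff_add, mul_coeff_zero, coeff_C_zero]
      have h4 : (p : ℤ) ^ 2 ∣ g.coeff 0 - G 0 := (hco 0 (by omega)).symm.dvd
      have hG0 : G 0 = ((gb.coeff 0).val : ℤ) + p * t := by simp [G]
      rw [h3] at h
      obtain ⟨x, hx⟩ := h
      obtain ⟨y, hy⟩ := h4
      have h5 : (p : ℤ) * (1 - p * (x - A.coeff 0 * y - m')) = 0 := by
        rw [hG0] at hy
        have e1 : g.coeff 0 = ((gb.coeff 0).val : ℤ) + p * t + p ^ 2 * y := by linarith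
        rw [e1] at hx
        linear_combination hx - hm - (p : ℤ) * hm'
      have hp0 : (p : ℤ) ≠ 0 := by exact_mod_cast hp.ne_zero
      have h6 : 1 - (p : ℤ) * (x - A.coeff 0 * y - m') = 0 := (mul_eq_zero.1 h5).resolve_left hp0
      have h7 : (p : ℤ) ∣ 1 := ⟨x - A.coeff 0 * y - m', by linarith⟩
      have h8 := Int.isUnit_iff.1 (isUnit_of_dvd_one h7)
      have := hp.two_le
      omega
  refine hEis.irreducible ?_ hfm.isPrimitive (by omega)
  rw [Ideal.span_singleton_prime (by exact_mod_cast hp.ne_zero)]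
  exact Nat.prime_iff_prime_int.1 hp

end Pool.Agent.D0H50.KC
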